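import Pool.Agent.Lib.DU.PI.Top
import Pool.Agent.Lib.DM.PI.AllZ

/-!
# THEOREM DU, Part I (helper55): Theorem DU from Part G

`tDU_of : S_G → ThmDU`.
-/

set_option autoImplicit false

noncomputable section

namespace Pool.Agent.DM.DU.PI

open Pool.Agent.MuZ Pool.Agent.DN

/-- **Theorem DU** from Part G. -/
theorem tDU_of (G : S_G) : ThmDU := thmDU_of DM.PI.zInG DS.zCj G

end Pool.Agent.DM.DU.PI
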