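import Pool.Agent.Lib.DU.PI.KT
import Pool.Agent.Lib.FW.R4.R4I
import Pool.Agent.Lib.FW.G.Ine
import Pool.Agent.Lib.FW.E.Cy

/-!
# THEOREM DU, Part I (helper55): inversion at one odd prime number

`act`, `split`, `above`: roots of unity, primes of `ZZ` (as in `FW/R4/R4A.lean`, where they are private). `ginv`: for an odd prime
number `l` prime to `m` there is `g` which inverts the `l^e`-th roots of unity and fixes the `m`-th ones, with `Ψ(g)² = 1`.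
-/

set_option autoImplicit false

open scoped Pointwise

noncomputable section

namespace Pool.Agent.DM.DU.PI

open Pool.Agent.MuZ
open Pool.Agent.DI (VP MP UP)

theorem prim (m : ℕ) (hm : 0 < m) : ∃ ζ : Om, IsPrimitiveRoot ζ m := by
  have hne : NeZero m := ⟨hm.ne'⟩
  have hne' : NeZero ((m : ℕ) : Om) := ⟨by
    rw [Nat.cast_ne_zero]
    exact hm.ne'⟩
  exact HasEnoughRootsOfUnity.exists_primitiveRoot Om m

/-- Every automorphism acts on the `m`-th roots of unity as a power prime to `m`. -/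
theorem act (m : ℕ) (hm : 0 < m) (σ : Gal(Om/ℚ)) :
    ∃ s : ℕ, s.Coprime m ∧ ∀ z : Om, z ^ m = 1 → σ z = z ^ s := by
  obtain ⟨ζ, hζ⟩ := prim m hm
  have hne : NeZero m := ⟨hm.ne'⟩
  have hσζ : IsPrimitiveRoot (σ ζ) m := hζ.map_of_injective σ.injective
  obtain ⟨i, -, hi⟩ := hζ.eq_pow_of_pow_eq_one hσζ.pow_eq_one
  refine ⟨i, ?_, fun z hz => ?_⟩
  · rw [← hi] at hσζ
    exact (hζ.pow_iff_coprime hm i).1 hσζ
  · obtain ⟨j, -, hj⟩ := hζ.eq_pow_of_pow_eq_one hz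
    rw [← hj, map_pow, ← hi, ← pow_mul, ← pow_mul, mul_comm]

/-- Splitting of roots of unity of coprime orders. -/
theorem split (m n : ℕ) (h : m.Coprime n) (z : Om) (hz : z ^ (m * n) = 1) :
    ∃ z1 z2 : Om, z1 ^ m = 1 ∧ z2 ^ n = 1 ∧ z = z1 * z2 := by
  obtain ⟨c1, h11, h12⟩ := Nat.chineseRemainder h 1 0
  obtain ⟨c2, h21, h22⟩ := Nat.chineseRemainder h 0 1
  refine ⟨z ^ c1, z ^ c2, ?_, ?_, ?_⟩
  · obtain ⟨k, hk⟩ := (Nat.modEq_zero_iff_dvd).1 h12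
    rw [hk, ← pow_mul]
    have : n * k * m = m * n * k := by ring
    rw [this, pow_mul, hz, one_pow]
  · obtain ⟨k, hk⟩ := (Nat.modEq_zero_iff_dvd).1 h21
    rw [hk, ← pow_mul]
    have : m * k * n = m * n * k := by ring
    rw [this, pow_mul, hz, one_pow]
  · have h1 : c1 + c2 ≡ 1 [MOD m * n] := by
      rw [← Nat.modEq_and_modEq_iff_modEq_mul h]
      exact ⟨by simpa using h11.add h21, by simpa using h12.add h22⟩
    rw [← pow_add, pow_eq_pow_of_modEq h1 hz, pow_one]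

/-- A prime of `ZZ` above a prime number. -/
theorem above (r : ℕ) (hr : r.Prime) :
    ∃ P : Ideal ZZ, P.IsPrime ∧ P ≠ ⊥ ∧ (r : ZZ) ∈ P := by
  have hne : Ideal.span {(r : ZZ)} ≠ ⊤ := by
    intro h
    rw [Ideal.span_singleton_eq_top] at h
    obtain ⟨y, hy⟩ := h.exists_right_inv
    have h1 : IsIntegral ℤ (y : Om) := y.2
    have hr0 : (r : Om) ≠ 0 := Nat.cast_ne_zero.2 hr.ne_zero
    have h2 : (y : Om) = algebraMap ℚ Om ((r : ℚ)⁻¹) := by
      have h3 : (r : Om) * (y : Om) = 1 := by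
        have h4 := congrArg (fun u : ZZ => (u : Om)) hy
        simpa using h4
      rw [map_inv₀, map_natCast]
      exact eq_inv_of_mul_eq_one_right h3
    rw [h2] at h1
    have h3 : IsIntegral ℤ ((r : ℚ)⁻¹) :=
      (isIntegral_algebraMap_iff (algebraMap ℚ Om).injective).1 h1
    obtain ⟨c, hc⟩ := IsIntegrallyClosed.isIntegral_iff.1 h3
    have h4 : (c : ℚ) * (r : ℚ) = 1 := by
      have h5 : (c : ℚ) = (r : ℚ)⁻¹ := hc
      rw [h5]
      exact inv_mul_cancel₀ (Nat.cast_ne_zero.2 hr.ne_zero)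
    have h5 : c * (r : ℤ) = 1 := by exact_mod_cast h4
    have h6 : (r : ℤ) ∣ 1 := ⟨c, by rw [mul_comm]; exact h5.symm⟩
    have h7 : r ∣ 1 := by exact_mod_cast h6
    exact hr.one_lt.ne' (Nat.dvd_one.1 h7)
  obtain ⟨P, hPm, hIP⟩ := Ideal.exists_le_maximal _ hne
  have hrP : (r : ZZ) ∈ P := hIP (Ideal.mem_span_singleton_self _)
  refine ⟨P, hPm.isPrime, ?_, hrP⟩
  rintro rfl
  rw [Ideal.mem_bot] at hrP
  have h1 := congrArg (fun u : ZZ => (u : Om)) hrP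
  have h2 : (r : Om) = 0 := by simpa using h1
  exact hr.ne_zero (Nat.cast_eq_zero.1 h2)


/-- A power congruent to `-1`. -/
theorem exPow (l : ℕ) (hl : l.Prime) (hl2 : l ≠ 2) (e : ℕ) :
    ∃ a : ℕ, ¬ l ∣ a ∧ l ^ (e + 1) ∣ a ^ ((l - 1) / 2) + 1 := by
  have : Fact l.Prime := ⟨hl⟩
  obtain ⟨b, hb⟩ := FiniteField.exists_nonsquare (F := ZMod l) (by
    rw [ZMod.ringChar_zmod_n]
    exact hl2)
  have hb0 : b ≠ 0 := by
    rintro rfl
    exact hb ⟨0, by ring⟩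
  have h1 : b ^ (l / 2) = -1 :=
    (ZMod.pow_div_two_eq_neg_one_or_one l hb0).resolve_left (fun h =>
      hb ((ZMod.euler_criterion l hb0).2 h))
  have hl3 : l / 2 = (l - 1) / 2 := by
    obtain ⟨j, hj⟩ := hl.odd_of_ne_two hl2
    omega
  have hbv : ((b.val : ℕ) : ZMod l) = b := ZMod.natCast_zmod_val b
  have h2 : (l : ℤ) ∣ ((b.val : ℤ)) ^ ((l - 1) / 2) - (-1) := by
    rw [← ZMod.intCast_zmod_eq_zero_iff_dvd]
    push_cast
    rw [hbv, ← hl3, h1]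
    ring
  have h3 := dvd_sub_pow_of_dvd_sub h2 e
  refine ⟨b.val ^ l ^ e, fun h4 => ?_, ?_⟩
  · have h5 := hl.dvd_of_dvd_pow h4
    rw [← ZMod.natCast_eq_zero_iff, hbv] at h5
    exact hb0 h5
  · have ho : Odd (l ^ e) := (hl.odd_of_ne_two hl2).pow
    rw [ho.neg_one_pow, sub_neg_eq_add, ← pow_mul, mul_comm, pow_mul] at h3
    exact_mod_cast h3

/-- **Inversion at one odd prime number.** -/
theorem ginv (Ψ : Gal(Om/ℚ) →* Omˣ) (hΨ : LC Ψ) (k : ℕ) (h2 : ∀ σ, Ψ σ ^ 2 ^ k = 1)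
    (l : ℕ) (hl : l.Prime) (hl2 : l ≠ 2) (e m : ℕ) (hm : 0 < m) (hlm : ¬ l ∣ m) :
    ∃ g : Gal(Om/ℚ), Ψ g ^ 2 = 1 ∧ (∀ z : Om, z ^ l ^ e = 1 → g z = z⁻¹) ∧
      ∀ z : Om, z ^ m = 1 → g z = z := by
  obtain ⟨P, hP, -, hlP⟩ := above l hl
  obtain ⟨a, ha, had⟩ := exPow l hl hl2 e
  obtain ⟨τ, hτ, h3, h4⟩ := FW.tR4I FW.tIne FW.tECy l m (e + 1) a hl hm hlm ha P hP hlP
  have h5 : ∀ (z : Om) (j : ℕ), z ^ l ^ (e + 1) = 1 → (τ ^ j) z = z ^ a ^ j := by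
    intro z j hz
    induction j with
    | zero => rw [pow_zero, pow_zero, pow_one]; rfl
    | succ j ih => rw [pow_succ', AlgEquiv.mul_apply, ih, map_pow, h3 z hz, ← pow_mul, ← pow_succ']
  have h6 : ∀ (z : Om) (j : ℕ), z ^ m = 1 → (τ ^ j) z = z := by
    intro z j hz
    induction j with
    | zero => rw [pow_zero]; rfl
    | succ j ih => rw [pow_succ', AlgEquiv.mul_apply, ih, h4 z hz]
  refine ⟨τ ^ ((l - 1) / 2), ?_, fun z hz => ?_, fun z hz => h6 z _ hz⟩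
  · rw [map_pow, ← pow_mul]
    have h7 : (l - 1) / 2 * 2 = l - 1 := by
      obtain ⟨j, hj⟩ := hl.odd_of_ne_two hl2
      omega
    rw [h7]
    exact tame Ψ hΨ k h2 l hl hl2 P hP hlP τ hτ
  · have hz' : z ^ l ^ (e + 1) = 1 := by rw [pow_succ, pow_mul, hz, one_pow]
    rw [h5 z _ hz']
    obtain ⟨c, hc⟩ := had
    have h7 : z ^ (a ^ ((l - 1) / 2) + 1) = 1 := by
      rw [hc, pow_mul, hz', one_pow]
    rw [pow_succ] at h7
    exact eq_inv_of_mul_eq_one_left h7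

end Pool.Agent.DM.DU.PI
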