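import Pool.Agent.Lib.MuZ.Inst
import Pool.Agent.Lib.FW.SpecG

/-!
# THEOREM DU, Part I (helper55): Kummer elements for characters with values in `Omˣ`

`LC Ψ`: the homomorphism `Ψ : Gal(Om/ℚ) → Omˣ` is trivial on an open subgroup. `kum`: if the subgroup `W` acts trivially on
the values of `Ψ` then there is `β ≠ 0` with `σ β = Ψ(σ) β` for `σ ∈ W`.
-/

set_option autoImplicit false

open scoped Pointwise

noncomputable section

namespace Pool.Agent.DM.DU.PI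

open Pool.Agent.MuZ

/-- `Ψ` is trivial on the fixing subgroup of a number field. -/
def LC (Ψ : Gal(Om/ℚ) →* Omˣ) : Prop :=
  ∃ F : IntermediateField ℚ Om, FiniteDimensional ℚ F ∧ ∀ σ ∈ F.fixingSubgroup, Ψ σ = 1

theorem LC.mul {Ψ Ψ' : Gal(Om/ℚ) →* Omˣ} (h : LC Ψ) (h' : LC Ψ') : LC (Ψ * Ψ') := by
  obtain ⟨F, hF, h1⟩ := h
  obtain ⟨F', hF', h2⟩ := h'
  refine ⟨F ⊔ F', inferInstance, fun σ hσ => ?_⟩
  rw [MonoidHom.mul_apply, h1 σ (IntermediateField.fixingSubgroup_le le_sup_left hσ),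
    h2 σ (IntermediateField.fixingSubgroup_le le_sup_right hσ), mul_one]

theorem LC.inv {Ψ : Gal(Om/ℚ) →* Omˣ} (h : LC Ψ) : LC Ψ⁻¹ := by
  obtain ⟨F, hF, h1⟩ := h
  refine ⟨F, hF, fun σ hσ => ?_⟩
  rw [MonoidHom.inv_apply, h1 σ hσ, inv_one]

/-- The embedding of the restriction. -/
private def Kum_emb (E : IntermediateField ℚ Om) (h : Gal(E/ℚ)) : E →* Om where
  toFun x := (h x : Om)
  map_one' := by rw [map_one]; rfl
  map_mul' x y := by rw [map_mul]; rfl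

private theorem Kum_inj (E : IntermediateField ℚ Om) : Function.Injective (Kum_emb E) := by
  intro h h' e
  apply AlgEquiv.ext
  intro x
  apply Subtype.ext
  exact DFunLike.congr_fun e x

private theorem Kum_main (E : IntermediateField ℚ Om) [FiniteDimensional ℚ E]
    (H : Subgroup Gal(E/ℚ)) (c : Gal(E/ℚ) → Omˣ) :
    ∃ x : E, ∑ᶠ h : H, (((c h)⁻¹ : Omˣ) : Om) * ((h : Gal(E/ℚ)) x : Om) ≠ 0 := by
  classical
  have : Finite Gal(E/ℚ) := inferInstance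
  let _ : Fintype H := Fintype.ofFinite H
  by_contra hn
  push Not at hn
  have h1 := (linearIndependent_monoidHom E Om).comp (fun h : H => Kum_emb E (h : Gal(E/ℚ)))
    ((Kum_inj E).comp Subtype.val_injective)
  rw [Fintype.linearIndependent_iff] at h1
  have h2 := h1 (fun h => (((c h)⁻¹ : Omˣ) : Om)) ?_ 1
  · exact Units.ne_zero _ h2
  · funext x
    have h3 := hn x
    rw [finsum_eq_sum_of_fintype] at h3
    rw [Finset.sum_apply]
    exact h3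

/-- **Kummer elements.** -/
theorem kum (Ψ : Gal(Om/ℚ) →* Omˣ) (hΨ : LC Ψ) (W : Subgroup Gal(Om/ℚ))
    (hW : ∀ σ ∈ W, ∀ τ : Gal(Om/ℚ), σ (Ψ τ : Om) = (Ψ τ : Om)) :
    ∃ β : Om, β ≠ 0 ∧ ∀ σ ∈ W, σ β = (Ψ σ : Om) * β := by
  classical
  obtain ⟨F, hF, h1F⟩ := hΨ
  have hO : (F.fixingSubgroup : Set Gal(Om/ℚ)) ∈ nhds (1 : Gal(Om/ℚ)) :=
    (IntermediateField.fixingSubgroup_isOpen F).mem_nhds (one_mem _)
  obtain ⟨E, hE, hN', hEO⟩ := (krullTopology_mem_nhds_one_iff_of_normal ℚ Om _).1 hO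
  have hN : Normal ℚ E := by
    convert hN'
    exact Subsingleton.elim _ _
  let r : Gal(Om/ℚ) →* Gal(E/ℚ) := AlgEquiv.restrictNormalHom E
  have hr : ∀ (σ : Gal(Om/ℚ)) (x : E), ((r σ x : E) : Om) = σ x := fun σ x =>
    AlgEquiv.restrictNormalHom_apply E σ x
  let H : Subgroup Gal(E/ℚ) := W.map r
  let c : Gal(E/ℚ) → Omˣ := fun h => if hh : ∃ σ ∈ W, r σ = h then Ψ hh.choose else 1
  have hc : ∀ σ ∈ W, c (r σ) = Ψ σ := by
    intro σ hσ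
    have hh : ∃ τ ∈ W, r τ = r σ := ⟨σ, hσ, rfl⟩
    change (if hh : ∃ τ ∈ W, r τ = r σ then Ψ hh.choose else 1) = Ψ σ
    rw [dif_pos hh]
    obtain ⟨h1, h2⟩ := hh.choose_spec
    set τ := hh.choose with hτ
    have h3 : σ⁻¹ * τ ∈ E.fixingSubgroup := by
      rw [IntermediateField.mem_fixingSubgroup_iff]
      intro x hx
      have h4 := congrArg (fun s : Gal(E/ℚ) => ((s ⟨x, hx⟩ : E) : Om)) h2
      simp only [hr] at h4
      rw [AlgEquiv.mul_apply, h4, ← AlgEquiv.mul_apply, inv_mul_cancel, AlgEquiv.one_apply]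
    have h4 : Ψ (σ⁻¹ * τ) = 1 := h1F _ (hEO h3)
    rw [map_mul, map_inv, inv_mul_eq_one] at h4
    exact h4.symm
  obtain ⟨x, hx⟩ := Kum_main E H c
  have : Finite Gal(E/ℚ) := inferInstance
  let _ : Fintype H := Fintype.ofFinite H
  rw [finsum_eq_sum_of_fintype] at hx
  refine ⟨_, hx, fun τ hτ => ?_⟩
  rw [map_sum, Finset.mul_sum]
  let t : H := ⟨r τ, τ, hτ, rfl⟩
  refine Eq.trans ?_ (Equiv.sum_comp (Equiv.mulLeft t) (fun h : H =>
    (Ψ τ : Om) * ((((c h)⁻¹ : Omˣ) : Om) * (((h : Gal(E/ℚ)) x : E) : Om))))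
  refine Finset.sum_congr rfl fun h _ => ?_
  obtain ⟨h, σ, hσ, rfl⟩ := h
  change τ ((((c (r σ))⁻¹ : Omˣ) : Om) * ((r σ x : E) : Om)) =
    (Ψ τ : Om) * ((((c (r τ * r σ))⁻¹ : Omˣ) : Om) * (((r τ * r σ) x : E) : Om))
  have e1 : τ ((((Ψ σ)⁻¹ : Omˣ) : Om)) = (((Ψ σ)⁻¹ : Omˣ) : Om) := by
    rw [← map_inv]
    exact hW τ hτ σ⁻¹
  have e2 : (((Ψ σ)⁻¹ : Omˣ) : Om) = (Ψ τ : Om) * (((Ψ τ * Ψ σ)⁻¹ : Omˣ) : Om) := by
    rw [← Units.val_mul, mul_inv, mul_inv_cancel_left]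
  rw [← map_mul r, hc _ hσ, hc _ (W.mul_mem hτ hσ), hr, hr, map_mul, e1, map_mul,
    AlgEquiv.mul_apply, ← mul_assoc, ← e2]

end Pool.Agent.DM.DU.PI
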