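import Pool.Agent.Lib.DU.PI.KE
import Pool.Agent.Lib.FW.E.J

/-!
# THEOREM DU, Part I (helper55): elements of order `2` modulo a cyclotomic field

`sq2`: `Ψ` a locally constant character of `2`-power order; if `Ψ(σ)² = 1` for all `σ` which fix the roots of unity of order
`2^s n`, `n` odd, then `Ψ(σ)² = 1` for all `σ` such that `σ²` fixes the roots of unity of order `2^(s+1) n`.
-/

set_option autoImplicit false

open scoped Pointwise

noncomputable section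

namespace Pool.Agent.DM.DU.PI

open Pool.Agent.MuZ

theorem ne0 {z : Om} {n : ℕ} (hn : 0 < n) (hz : z ^ n = 1) : z ≠ 0 := by
  rintro rfl
  rw [zero_pow hn.ne'] at hz
  exact zero_ne_one hz

theorem zfix {z : Om} {n : ℕ} (hn : 0 < n) (hz : z ^ n = 1) {t : ℕ} (h : (n : ℤ) ∣ (t : ℤ) - 1) :
    z ^ t = z := by
  have h0 := ne0 hn hz
  obtain ⟨c, hc⟩ := h
  have h1 : z ^ ((t : ℤ) - 1) = 1 := by
    rw [hc, zpow_mul, zpow_natCast, hz, one_zpow]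
  rw [zpow_sub₀ h0, zpow_natCast, zpow_one] at h1
  exact (div_eq_one_iff_eq h0).1 h1

theorem zinv {z : Om} {n : ℕ} (hn : 0 < n) (hz : z ^ n = 1) {t : ℕ} (h : (n : ℤ) ∣ (t : ℤ) + 1) :
    z ^ t = z⁻¹ := by
  have h0 := ne0 hn hz
  obtain ⟨c, hc⟩ := h
  have h1 : z ^ ((t : ℤ) + 1) = 1 := by
    rw [hc, zpow_mul, zpow_natCast, hz, one_zpow]
  rw [zpow_add₀ h0, zpow_natCast, zpow_one] at h1
  exact eq_inv_of_mul_eq_one_left h1

/-- The exponent of an element whose square acts trivially. -/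
theorem sqex {n : ℕ} (hn : 0 < n) {σ : Gal(Om/ℚ)} (h : ∀ z : Om, z ^ n = 1 → σ (σ z) = z) {t : ℕ}
    (ht : ∀ z : Om, z ^ n = 1 → σ z = z ^ t) : (n : ℤ) ∣ ((t : ℤ) - 1) * ((t : ℤ) + 1) := by
  obtain ⟨ζ, hζ⟩ := prim n hn
  have h0 := ne0 hn hζ.pow_eq_one
  have h1 := h ζ hζ.pow_eq_one
  rw [ht ζ hζ.pow_eq_one, map_pow, ht ζ hζ.pow_eq_one, ← pow_mul] at h1
  rw [← hζ.zpow_eq_one_iff_dvd]
  have h2 : ((t : ℤ) - 1) * ((t : ℤ) + 1) = ((t * t : ℕ) : ℤ) - 1 := by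
    push_cast
    ring
  rw [h2, zpow_sub₀ h0, zpow_natCast, zpow_one, h1, div_self h0]

theorem odd_dvd {l : ℕ} (hl : l.Prime) (hl2 : l ≠ 2) (e : ℕ) {x : ℤ}
    (h : ((l ^ e : ℕ) : ℤ) ∣ (x - 1) * (x + 1)) :
    ((l ^ e : ℕ) : ℤ) ∣ x - 1 ∨ ((l ^ e : ℕ) : ℤ) ∣ x + 1 := by
  have hp : Prime (l : ℤ) := Nat.prime_iff_prime_int.1 hl
  have hco : ∀ y : ℤ, ¬ (l : ℤ) ∣ y → IsCoprime ((l ^ e : ℕ) : ℤ) y := by
    intro y hy
    rw [Nat.cast_pow]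
    exact IsCoprime.pow_left ((Prime.coprime_iff_not_dvd hp).2 hy)
  by_cases h1 : (l : ℤ) ∣ x - 1
  · left
    refine (hco (x + 1) fun h2 => ?_).dvd_of_dvd_mul_right h
    have h3 : (l : ℤ) ∣ 2 := by
      have h4 := dvd_sub h2 h1
      have h5 : x + 1 - (x - 1) = 2 := by ring
      rwa [h5] at h4
    have h4 : l ∣ 2 := by exact_mod_cast h3
    exact hl2 ((Nat.prime_dvd_prime_iff_eq hl Nat.prime_two).1 h4)
  · exact Or.inr ((hco _ h1).dvd_of_dvd_mul_left h)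

theorem two_dvd' (s : ℕ) {x : ℤ} (h : ((2 ^ (s + 1) : ℕ) : ℤ) ∣ (x - 1) * (x + 1)) :
    ((2 ^ s : ℕ) : ℤ) ∣ x - 1 ∨ ((2 ^ s : ℕ) : ℤ) ∣ x + 1 := by
  have hco : ∀ y : ℤ, ¬ (2 : ℤ) ∣ y → IsCoprime ((2 ^ (s + 1) : ℕ) : ℤ) y := by
    intro y hy
    rw [Nat.cast_pow]
    exact IsCoprime.pow_left ((Prime.coprime_iff_not_dvd Int.prime_two).2 hy)
  have h1 : (2 : ℤ) ∣ (x - 1) * (x + 1) := by
    refine dvd_trans ?_ h
    rw [pow_succ]
    push_cast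
    exact dvd_mul_left _ _
  obtain ⟨a, ha⟩ : ∃ a : ℤ, x = 2 * a + 1 := by
    rcases Int.even_or_odd x with ⟨b, hb⟩ | ⟨b, hb⟩
    · exfalso
      rcases Int.prime_two.dvd_or_dvd h1 with h2 | h2 <;> omega
    · exact ⟨b, hb⟩
  have e0 : ((2 ^ (s + 1) : ℕ) : ℤ) = 2 * ((2 ^ s : ℕ) : ℤ) := by
    rw [pow_succ]
    push_cast
    ring
  by_cases h2 : (2 : ℤ) ∣ a
  · left
    have h3 : ¬ (2 : ℤ) ∣ a + 1 := by omega
    have h4 : (x - 1) * (x + 1) = (a + 1) * (2 * (2 * a)) := by rw [ha]; ring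
    rw [h4] at h
    have h5 := (hco _ h3).dvd_of_dvd_mul_left h
    rw [e0] at h5
    have h6 := Int.dvd_of_mul_dvd_mul_left (by norm_num : (2 : ℤ) ≠ 0) h5
    have h7 : x - 1 = 2 * a := by rw [ha]; ring
    rwa [h7]
  · right
    have h4 : (x - 1) * (x + 1) = a * (2 * (2 * (a + 1))) := by rw [ha]; ring
    rw [h4] at h
    have h5 := (hco _ h2).dvd_of_dvd_mul_left h
    rw [e0] at h5
    have h6 := Int.dvd_of_mul_dvd_mul_left (by norm_num : (2 : ℤ) ≠ 0) h5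
    have h7 : x + 1 = 2 * (a + 1) := by rw [ha]; ring
    rwa [h7]

/-- **The odd part.** -/
theorem odd_part (Ψ : Gal(Om/ℚ) →* Omˣ) (hΨ : LC Ψ) (k : ℕ) (h2 : ∀ σ, Ψ σ ^ 2 ^ k = 1) :
    ∀ n : ℕ, Odd n → ∀ m : ℕ, 0 < m → m.Coprime n → ∀ σ : Gal(Om/ℚ),
      (∀ z : Om, z ^ n = 1 → σ (σ z) = z) →
      ∃ h : Gal(Om/ℚ), Ψ h ^ 2 = 1 ∧ (∀ z : Om, z ^ m = 1 → h z = z) ∧
        ∀ z : Om, z ^ n = 1 → h (σ z) = z := by
  intro n
  induction n using Nat.recOnPosPrimePosCoprime with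
  | prime_pow l e hl he =>
    intro ho m hm hmn σ hσ
    have hl2 : l ≠ 2 := by
      rintro rfl
      have h3 : Even (2 ^ e) := (Nat.even_pow.2 ⟨even_two, he.ne'⟩)
      exact (Nat.not_even_iff_odd.2 ho) h3
    have hle : 0 < l ^ e := Nat.pow_pos hl.pos
    have hlm : ¬ l ∣ m := by
      intro h3
      have h4 : l ∣ l ^ e := dvd_pow_self l he.ne'
      exact hl.one_lt.ne' (Nat.dvd_one.1 (hmn ▸ Nat.dvd_gcd h3 h4))
    obtain ⟨t, -, ht⟩ := act (l ^ e) hle σ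
    rcases odd_dvd hl hl2 e (sqex hle hσ ht) with h3 | h3
    · refine ⟨1, ?_, fun z _ => rfl, fun z hz => ?_⟩
      · rw [map_one, one_pow]
      · rw [AlgEquiv.one_apply, ht z hz]
        exact zfix hle hz h3
    · obtain ⟨g, hg1, hg2, hg3⟩ := ginv Ψ hΨ k h2 l hl hl2 e m hm hlm
      refine ⟨g, hg1, hg3, fun z hz => ?_⟩
      rw [ht z hz, zinv hle hz h3, map_inv₀, hg2 z hz, inv_inv]
  | zero =>
    intro ho
    exact absurd ho (by decide)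
  | one =>
    intro _ m hm _ σ _
    refine ⟨1, ?_, fun z _ => rfl, fun z hz => ?_⟩
    · rw [map_one, one_pow]
    · rw [pow_one] at hz
      rw [hz, map_one, map_one]
  | coprime a b ha hb hab iha ihb =>
    intro ho m hm hmn σ hσ
    have ha0 : 0 < a := by omega
    have hb0 : 0 < b := by omega
    obtain ⟨hoa, hob⟩ := Nat.odd_mul.1 ho
    have hma : m.Coprime a := Nat.Coprime.coprime_mul_right_right hmn
    have hmb : m.Coprime b := Nat.Coprime.coprime_mul_left_right hmn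
    obtain ⟨h1, h11, h12, h13⟩ := iha hoa (m * b) (Nat.mul_pos hm hb0)
      (Nat.Coprime.mul_left hma hab.symm) σ
      (fun z hz => hσ z (by rw [pow_mul, hz, one_pow]))
    obtain ⟨h3, h31, h32, h33⟩ := ihb hob (m * a) (Nat.mul_pos hm ha0)
      (Nat.Coprime.mul_left hmb hab) σ
      (fun z hz => hσ z (by rw [mul_comm, pow_mul, hz, one_pow]))
    refine ⟨h3 * h1, ?_, fun z hz => ?_, fun z hz => ?_⟩
    · rw [map_mul, mul_pow, h11, h31, mul_one]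
    · rw [AlgEquiv.mul_apply, h12 z (by rw [pow_mul, hz, one_pow]),
        h32 z (by rw [pow_mul, hz, one_pow])]
    · obtain ⟨z1, z2, hz1, hz2, rfl⟩ := split a b hab z hz
      have e1 : h1 (σ z1) = z1 := h13 z1 hz1
      have e2 : h1 (σ z2) = σ z2 := by
        refine h12 _ ?_
        rw [mul_comm, pow_mul, ← map_pow, hz2, map_one, one_pow]
      have e3 : h3 z1 = z1 := h32 z1 (by rw [mul_comm, pow_mul, hz1, one_pow])
      rw [AlgEquiv.mul_apply, map_mul, map_mul, e1, e2, map_mul, e3, h33 z2 hz2]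

/-- **Elements of order `2` modulo a cyclotomic field.** -/
theorem sq2 (Ψ : Gal(Om/ℚ) →* Omˣ) (hΨ : LC Ψ) (k : ℕ) (h2 : ∀ σ, Ψ σ ^ 2 ^ k = 1) (s n : ℕ)
    (hn : Odd n)
    (h0 : ∀ σ : Gal(Om/ℚ), (∀ z : Om, z ^ (2 ^ s * n) = 1 → σ z = z) → Ψ σ ^ 2 = 1)
    (σ : Gal(Om/ℚ)) (hσ : ∀ z : Om, z ^ (2 ^ (s + 1) * n) = 1 → σ (σ z) = z) : Ψ σ ^ 2 = 1 := by
  have hp : 0 < 2 ^ s := Nat.pow_pos two_pos
  have hp1 : 0 < 2 ^ (s + 1) := Nat.pow_pos two_pos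
  have hco : (2 ^ s).Coprime n := Nat.Coprime.pow_left s (Nat.coprime_two_left.2 hn)
  -- the case of `σ` trivial on the roots of unity of order `2^s`
  have key : ∀ τ : Gal(Om/ℚ), (∀ z : Om, z ^ 2 ^ s = 1 → τ z = z) →
      (∀ z : Om, z ^ n = 1 → τ (τ z) = z) → Ψ τ ^ 2 = 1 := by
    intro τ h3 h4
    obtain ⟨h, h5, h6, h7⟩ := odd_part Ψ hΨ k h2 n hn (2 ^ s) hp hco τ h4
    have h8 := h0 (h * τ) (fun z hz => by
      obtain ⟨z1, z2, hz1, hz2, rfl⟩ := split (2 ^ s) n hco z hz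
      rw [AlgEquiv.mul_apply, map_mul, map_mul, h3 z1 hz1, h6 z1 hz1, h7 z2 hz2])
    rwa [map_mul, mul_pow, h5, one_mul] at h8
  obtain ⟨t, -, ht⟩ := act (2 ^ (s + 1)) hp1 σ
  have h3 := sqex hp1 (fun z hz => hσ z (by rw [pow_mul, hz, one_pow])) ht
  have hup : ∀ z : Om, z ^ 2 ^ s = 1 → z ^ 2 ^ (s + 1) = 1 := fun z hz => by
    rw [pow_succ, pow_mul, hz, one_pow]
  have hσn : ∀ z : Om, z ^ n = 1 → σ (σ z) = z := fun z hz =>
    hσ z (by rw [mul_comm, pow_mul, hz, one_pow])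
  rcases two_dvd' s h3 with h4 | h4
  · exact key σ (fun z hz => by rw [ht z (hup z hz)]; exact zfix hp hz h4) hσn
  · obtain ⟨⟨J, hJ⟩, hJ2⟩ := FW.tEJ
    obtain ⟨hJJ, hJz, -⟩ := hJ2 J hJ
    have h5 := key (J * σ) (fun z hz => by
      rw [AlgEquiv.mul_apply, ht z (hup z hz), zinv hp hz h4, map_inv₀, hJz _ z hp hz, inv_inv])
      (fun z hz => by
        have hn0 : 0 < n := hn.pos
        have hσz : (σ z) ^ n = 1 := by rw [← map_pow, hz, map_one]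
        rw [AlgEquiv.mul_apply, AlgEquiv.mul_apply, hJz n _ hn0 hσz, map_inv₀, hσn z hz, map_inv₀,
          hJz n z hn0 hz, inv_inv])
    have h6 : Ψ J ^ 2 = 1 := by rw [pow_two, ← map_mul, hJJ, map_one]
    rwa [map_mul, mul_pow, h6, one_mul] at h5

end Pool.Agent.DM.DU.PI
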