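import Pool.Agent.Lib.DU.PI.KQ2
import Pool.Agent.Lib.DT.PI.Sqr

/-!
# THEOREM DU, Part I (helper55): characters of `2`-power order are cyclotomic

`kw2`: every locally constant character of `Gal(Om/ℚ)` of `2`-power order is trivial on the elements which fix the roots of unity of
some order `m` (the theorem of Kronecker and Weber for these characters).
-/

set_option autoImplicit false

open scoped Pointwise

noncomputable section

namespace Pool.Agent.DM.DU.PI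

open Pool.Agent.MuZ

/-- Quadratic characters. -/
theorem quad (Ψ : Gal(Om/ℚ) →* Omˣ) (hΨ : LC Ψ) (h2 : ∀ σ, Ψ σ ^ 2 = 1) :
    ∃ m : ℕ, 0 < m ∧ ∀ σ : Gal(Om/ℚ), (∀ z : Om, z ^ m = 1 → σ z = z) → Ψ σ = 1 := by
  have hpm : ∀ τ : Gal(Om/ℚ), (Ψ τ : Om) = 1 ∨ (Ψ τ : Om) = -1 := by
    intro τ
    have h3 : (Ψ τ : Om) ^ 2 = 1 := by
      rw [← Units.val_pow_eq_pow_val, h2]
      rfl
    exact sq_eq_sq_iff_eq_or_eq_neg.1 (h3.trans (one_pow 2).symm)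
  obtain ⟨β, hβ0, hβ⟩ := kum Ψ hΨ ⊤ (fun σ _ τ => by
    rcases hpm τ with h | h
    · rw [h, map_one]
    · rw [h, map_neg, map_one])
  have h3 : ∀ σ : Gal(Om/ℚ), σ (β ^ 2) = β ^ 2 := by
    intro σ
    rw [map_pow, hβ σ (Subgroup.mem_top σ)]
    rcases hpm σ with h | h
    · rw [h, one_mul]
    · rw [h]
      ring
  have h4 : β ^ 2 ∈ (⊥ : IntermediateField ℚ Om) := (InfiniteGalois.mem_bot_iff_fixed _).2 h3
  obtain ⟨q, hq⟩ := IntermediateField.mem_bot.1 h4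
  obtain ⟨m, g, hm, hg, hσ⟩ := DT.PI.pSqr (q.num * q.den)
  have hd0 : (q.den : Om) ≠ 0 := Nat.cast_ne_zero.2 q.den_ne_zero
  have h5 : ((q.den : Om) * β) ^ 2 = g ^ 2 := by
    rw [mul_pow, ← hq, hg]
    have h6 : algebraMap ℚ Om q = (q.num : Om) / (q.den : Om) := by
      rw [eq_ratCast]
      exact Rat.cast_def q
    rw [h6]
    push_cast
    field_simp
  refine ⟨m, hm, fun σ hσm => ?_⟩
  have h6 := hσ σ hσm
  have h7 : σ ((q.den : Om) * β) = (q.den : Om) * β := by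
    rcases sq_eq_sq_iff_eq_or_eq_neg.1 h5 with h | h
    · rw [h, h6]
    · rw [h, map_neg, h6]
  rw [map_mul, map_natCast] at h7
  have h8 := mul_left_cancel₀ hd0 h7
  rw [hβ σ (Subgroup.mem_top σ)] at h8
  apply Units.ext
  rw [Units.val_one]
  exact mul_right_cancel₀ hβ0 (by rw [h8, one_mul])

/-- A character of a finite abelian group which is trivial on the elements of order `2` is a square. -/
theorem sqchar {A : Type} [CommGroup A] [Finite A] (ψ : A →* Omˣ)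
    (h : ∀ x : A, x ^ 2 = 1 → ψ x = 1) : ∃ φ : A →* Omˣ, ∀ x, φ x ^ 2 = ψ x := by
  let sq : A →* A := powMonoidHom 2
  have hsq : ∀ x, sq x = x ^ 2 := fun x => rfl
  let r : A →* sq.range := sq.rangeRestrict
  have hr : Function.Surjective r := sq.rangeRestrict_surjective
  have hker : r.ker ≤ ψ.ker := by
    intro x hx
    rw [MonoidHom.mem_ker] at hx ⊢
    apply h
    have h1 := congrArg Subtype.val hx
    exact h1
  let φ0 : sq.range →* Omˣ := r.liftOfSurjective hr ⟨ψ, hker⟩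
  have hφ0 : ∀ x, φ0 (r x) = ψ x := fun x =>
    MonoidHom.liftOfRightInverse_comp_apply r _ (Function.rightInverse_surjInv hr) ⟨ψ, hker⟩ x
  have : NeZero (Monoid.exponent A) := ⟨Monoid.exponent_ne_zero_of_finite⟩
  have : HasEnoughRootsOfUnity Om (Monoid.exponent A) := inferInstance
  obtain ⟨φ, hφ⟩ := MonoidHom.domRestrict_surjective (G := A) Om sq.range φ0
  refine ⟨φ, fun x => ?_⟩
  have h1 : φ ((r x : sq.range) : A) = φ0 (r x) := by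
    rw [← hφ]
    rfl
  rw [hφ0] at h1
  rw [← map_pow, ← h1]
  rfl

/-- The cyclotomic character. -/
theorem cychar (M : ℕ) (hM : 0 < M) : ∃ κ : Gal(Om/ℚ) →* (ZMod M)ˣ, ∀ σ : Gal(Om/ℚ),
    κ σ = 1 ↔ ∀ z : Om, z ^ M = 1 → σ z = z := by
  have : NeZero M := ⟨hM.ne'⟩
  obtain ⟨ζ, hζ⟩ := prim M hM
  refine ⟨hζ.autToPow ℚ, fun σ => ⟨fun h z hz => ?_, fun h => ?_⟩⟩
  · have h1 := hζ.autToPow_spec ℚ σ
    rw [h] at h1
    obtain ⟨i, -, rfl⟩ := hζ.eq_pow_of_pow_eq_one hz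
    rw [map_pow]
    congr 1
    rw [← h1]
    by_cases hM1 : M = 1
    · subst hM1
      have h2 : ζ = 1 := by
        have h3 := hζ.pow_eq_one
        rwa [pow_one] at h3
      rw [h2, one_pow]
    · have : Fact (1 < M) := ⟨by omega⟩
      rw [Units.val_one, ZMod.val_one, pow_one]
  · have h1 := hζ.autToPow_spec ℚ σ
    rw [h ζ hζ.pow_eq_one] at h1
    apply Units.ext
    rw [Units.val_one]
    by_cases hM1 : M = 1
    · subst hM1
      exact Subsingleton.elim _ _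
    · have h1M : 1 < M := by omega
      have : Fact (1 < M) := ⟨h1M⟩
      apply ZMod.val_injective M
      rw [ZMod.val_one]
      refine hζ.pow_inj (ZMod.val_lt _) h1M ?_
      rw [pow_one]
      exact h1

/-- **Square roots of cyclotomic characters.** -/
theorem sqrt (Ψ : Gal(Om/ℚ) →* Omˣ) (M : ℕ) (hM : 0 < M)
    (h1 : ∀ σ : Gal(Om/ℚ), (∀ z : Om, z ^ M = 1 → σ z = z) → Ψ σ ^ 2 = 1)
    (h2 : ∀ σ : Gal(Om/ℚ), (∀ z : Om, z ^ M = 1 → σ (σ z) = z) → Ψ σ ^ 2 = 1) :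
    ∃ Φ : Gal(Om/ℚ) →* Omˣ, (∀ σ : Gal(Om/ℚ), (∀ z : Om, z ^ M = 1 → σ z = z) → Φ σ = 1) ∧
      ∀ σ, Φ σ ^ 2 = Ψ σ ^ 2 := by
  have : NeZero M := ⟨hM.ne'⟩
  obtain ⟨κ, hκ⟩ := cychar M hM
  let r : Gal(Om/ℚ) →* κ.range := κ.rangeRestrict
  have hr : Function.Surjective r := κ.rangeRestrict_surjective
  have hr1 : ∀ σ, r σ = 1 ↔ κ σ = 1 := fun σ => by
    rw [← Subtype.val_inj]
    rfl
  have hker : r.ker ≤ (Ψ ^ 2).ker := by
    intro σ hσ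
    rw [MonoidHom.mem_ker, hr1, hκ] at hσ
    rw [MonoidHom.mem_ker]
    exact h1 σ hσ
  let ψ : κ.range →* Omˣ := r.liftOfSurjective hr ⟨Ψ ^ 2, hker⟩
  have hψ : ∀ σ, ψ (r σ) = Ψ σ ^ 2 := fun σ =>
    MonoidHom.liftOfRightInverse_comp_apply r _ (Function.rightInverse_surjInv hr) ⟨Ψ ^ 2, hker⟩ σ
  obtain ⟨φ, hφ⟩ := sqchar ψ (by
    intro x hx
    obtain ⟨σ, rfl⟩ := hr x
    rw [← map_pow, hr1, hκ] at hx
    rw [hψ]
    refine h2 σ (fun z hz => ?_)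
    have h3 := hx z hz
    rwa [pow_two, AlgEquiv.mul_apply] at h3)
  refine ⟨φ.comp r, fun σ hσ => ?_, fun σ => ?_⟩
  · rw [MonoidHom.comp_apply, (hr1 σ).2 ((hκ σ).2 hσ), map_one]
  · rw [MonoidHom.comp_apply, hφ, hψ]

theorem lc_cyc (Φ : Gal(Om/ℚ) →* Omˣ) (M : ℕ) (hM : 0 < M)
    (h : ∀ σ : Gal(Om/ℚ), (∀ z : Om, z ^ M = 1 → σ z = z) → Φ σ = 1) : LC Φ :=
  ⟨FW.Cy M, (FW.tECy.1 M hM).1, fun σ hσ => h σ ((FW.tECy.2.1 M σ).1 hσ)⟩

/-- **Characters of `2`-power order are cyclotomic.** -/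
theorem kw2 (k : ℕ) : ∀ Ψ : Gal(Om/ℚ) →* Omˣ, LC Ψ → (∀ σ, Ψ σ ^ 2 ^ k = 1) →
    ∃ m : ℕ, 0 < m ∧ ∀ σ : Gal(Om/ℚ), (∀ z : Om, z ^ m = 1 → σ z = z) → Ψ σ = 1 := by
  induction k with
  | zero =>
    intro Ψ _ h
    refine ⟨1, one_pos, fun σ _ => ?_⟩
    have h1 := h σ
    rwa [pow_zero, pow_one] at h1
  | succ k ih =>
    intro Ψ hΨ h
    have hΨ2 : LC (Ψ ^ 2) := by
      rw [pow_two]
      exact hΨ.mul hΨ
    obtain ⟨m0, hm0, h0⟩ := ih (Ψ ^ 2) hΨ2 (fun σ => by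
      rw [MonoidHom.pow_apply, ← pow_mul, ← pow_succ']
      exact h σ)
    obtain ⟨s, n, hn, rfl⟩ := Nat.exists_eq_two_pow_mul_odd hm0.ne'
    have h0' : ∀ σ : Gal(Om/ℚ), (∀ z : Om, z ^ (2 ^ s * n) = 1 → σ z = z) → Ψ σ ^ 2 = 1 := h0
    have hM : 0 < 2 ^ (s + 1) * n := Nat.mul_pos (Nat.pow_pos two_pos) hn.pos
    obtain ⟨Φ, hΦ1, hΦ2⟩ := sqrt Ψ (2 ^ (s + 1) * n) hM (fun σ hσ => h0' σ (fun z hz => hσ z (by
      rw [pow_succ, mul_right_comm, pow_mul, hz, one_pow])))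
      (fun σ hσ => sq2 Ψ hΨ (k + 1) h s n hn h0' σ hσ)
    have hΦ := lc_cyc Φ _ hM hΦ1
    obtain ⟨m', hm', h3⟩ := quad (Ψ * Φ⁻¹) (hΨ.mul hΦ.inv) (fun σ => by
      rw [MonoidHom.mul_apply, MonoidHom.inv_apply, mul_pow, inv_pow, hΦ2, mul_inv_cancel])
    refine ⟨2 ^ (s + 1) * n * m', Nat.mul_pos hM hm', fun σ hσ => ?_⟩
    have h4 := h3 σ (fun z hz => hσ z (by rw [mul_comm, pow_mul, hz, one_pow]))
    rw [MonoidHom.mul_apply, MonoidHom.inv_apply, hΦ1 σ (fun z hz => hσ z (by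
      rw [pow_mul, hz, one_pow])), inv_one, mul_one] at h4
    exact h4

end Pool.Agent.DM.DU.PI
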