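import Pool.Agent.Lib.DU.PI.KM
import Pool.Agent.Lib.DI.Val
import Pool.Agent.Lib.MuZ.Frob
import Pool.Agent.Lib.MuZ.InT

/-!
# THEOREM DU, Part I (helper55): the tame relation

`tame`: `Ψ` a locally constant character of `Gal(Om/ℚ)` of `2`-power order, `l` an odd prime number in `P`, `τ` in the inertia
group of `P`: `Ψ(τ)^(l-1) = 1`.
-/

set_option autoImplicit false

open scoped Pointwise

noncomputable section

namespace Pool.Agent.DM.DU.PI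

open Pool.Agent.MuZ
open Pool.Agent.DI (VP MP UP)

theorem pmod {z : Om} {n a b : ℕ} (hz : z ^ n = 1) (h : a ≡ b [MOD n]) : z ^ a = z ^ b := by
  rw [pow_eq_pow_mod a hz, pow_eq_pow_mod b hz]
  exact congrArg _ h

/-- A root of unity of `p`-power order which is `1` modulo `P` is `1`. -/
theorem rt1 {P : Ideal ZZ} [hP : P.IsPrime] {p : ℕ} (hp : p.Prime) (h2 : (p : ZZ) ∉ P) {η : Om}
    {n : ℕ} (h1 : η ^ p ^ n = 1) (h : MP P (η - 1)) : η = 1 := by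
  have hint : IsIntegral ℤ η := by
    refine IsIntegral.of_pow (n := p ^ n) (Nat.pow_pos hp.pos) ?_
    rw [h1]
    exact isIntegral_one
  set x : ZZ := ⟨η, hint⟩ with hx
  have hx1 : x ^ p ^ n = 1 := Subtype.ext h1
  have hx2 : x - 1 ∈ P := by
    rw [← MP.coe_iff (P := P)]
    exact h
  exact congrArg (fun y : ZZ => (y : Om)) (InTAux.root_one hP h2 hx1 hx2)

/-- The inertia group fixes the roots of unity of order prime to `P`. -/
theorem ine2 {P : Ideal ZZ} [hP : P.IsPrime] {p : ℕ} (hp : p.Prime) (h2 : (p : ZZ) ∉ P)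
    {τ : Gal(Om/ℚ)} (hτ : τ ∈ P.inertia Gal(Om/ℚ)) {z : Om} {n : ℕ} (h1 : z ^ p ^ n = 1) :
    τ z = z := by
  have hz0 : z ≠ 0 := by
    intro h0
    rw [h0, zero_pow (Nat.pow_pos hp.pos).ne'] at h1
    exact zero_ne_one h1
  have hint : ∀ y : Om, y ^ p ^ n = 1 → IsIntegral ℤ y := fun y hy => by
    refine IsIntegral.of_pow (n := p ^ n) (Nat.pow_pos hp.pos) ?_
    rw [hy]
    exact isIntegral_one
  have hv : VP P z := VP.integral (hint z h1)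
  have hv' : VP P z⁻¹ := VP.integral (hint z⁻¹ (by rw [inv_pow, h1, inv_one]))
  have h3 : MP P (τ z - z) := VP.inertia hτ hv
  have h4 : τ z * z⁻¹ = 1 := by
    refine rt1 hp h2 (n := n) ?_ ?_
    · rw [mul_pow, ← map_pow, h1, map_one, inv_pow, h1, inv_one, one_mul]
    · have h5 := MP.mul_right h3 hv'
      rwa [sub_mul, mul_inv_cancel₀ hz0] at h5
  rwa [mul_inv_eq_one₀ hz0] at h4

theorem nomp {P : Ideal ZZ} [hP : P.IsPrime] {φ : Gal(Om/ℚ)}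
    (hφ : φ ∈ MulAction.stabilizer Gal(Om/ℚ) P) {β : Om} (hβ : β ≠ 0) {M : ℕ} (hM : 0 < M)
    (h : (φ ^ M) β = β) : ¬ MP P (φ β / β) := by
  intro hm
  have key : ∀ j : ℕ, ∃ u : Om, VP P u ∧ (0 < j → MP P u) ∧ (φ ^ j) β = u * β := by
    intro j
    induction j with
    | zero => exact ⟨1, VP.one, fun h0 => absurd h0 (lt_irrefl _), by rw [pow_zero, one_mul]; rfl⟩
    | succ j ih =>
      obtain ⟨u, hu, -, hj⟩ := ih
      have h1 : MP P (φ u * (φ β / β)) := MP.mul_left ((VP.stab hφ).2 hu) hm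
      refine ⟨φ u * (φ β / β), h1.vp, fun _ => h1, ?_⟩
      rw [pow_succ', AlgEquiv.mul_apply, hj, map_mul, mul_assoc, div_mul_cancel₀ _ hβ]
  obtain ⟨u, -, hu, hj⟩ := key M
  rw [h] at hj
  have h1 : u = 1 := by
    have h2 : (u - 1) * β = 0 := by rw [sub_mul, ← hj, one_mul, sub_self]
    rcases mul_eq_zero.1 h2 with h3 | h3
    · exact sub_eq_zero.1 h3
    · exact absurd h3 hβ
  have h2 := hu hM
  rw [h1] at h2
  exact MP.one_not h2

/-- **The tame relation.** -/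
theorem tame (Ψ : Gal(Om/ℚ) →* Omˣ) (hΨ : LC Ψ) (k : ℕ) (h2 : ∀ σ, Ψ σ ^ 2 ^ k = 1)
    (l : ℕ) (hl : l.Prime) (hl2 : l ≠ 2) (P : Ideal ZZ) (hP : P.IsPrime) (hlP : (l : ZZ) ∈ P)
    (τ : Gal(Om/ℚ)) (hτ : τ ∈ P.inertia Gal(Om/ℚ)) : Ψ τ ^ (l - 1) = 1 := by
  have h2P : ((2 : ℕ) : ZZ) ∉ P := by
    intro h3
    obtain ⟨j, hj⟩ := hl.odd_of_ne_two hl2
    apply hP.one_notMem
    have h4 := P.sub_mem hlP (P.mul_mem_right ((j : ℕ) : ZZ) h3)
    rw [hj] at h4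
    push_cast at h4
    rwa [add_sub_cancel_left] at h4
  obtain ⟨ζ, hζ⟩ := HasEnoughRootsOfUnity.exists_primitiveRoot Om (2 ^ k)
  have hval : ∀ ρ : Gal(Om/ℚ), (Ψ ρ : Om) ^ 2 ^ k = 1 := fun ρ => by
    rw [← Units.val_pow_eq_pow_val, h2]
    rfl
  let W : Subgroup Gal(Om/ℚ) := MulAction.stabilizer Gal(Om/ℚ) ζ
  have hWi : ∀ σ : Gal(Om/ℚ), σ ∈ W ↔ σ ζ = ζ := fun σ => MulAction.mem_stabilizer_iff
  have hW : ∀ σ ∈ W, ∀ ρ : Gal(Om/ℚ), σ (Ψ ρ : Om) = (Ψ ρ : Om) := by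
    intro σ hσ ρ
    obtain ⟨i, -, hi⟩ := hζ.eq_pow_of_pow_eq_one (hval ρ)
    rw [← hi, map_pow, (hWi σ).1 hσ]
  obtain ⟨β, hβ0, hβ⟩ := kum Ψ hΨ W hW
  obtain ⟨φ, hφP, hφ⟩ := frob 2 l Nat.prime_two hl hl2.symm P hP hlP
  have hτζ : τ ζ = ζ := ine2 Nat.prime_two h2P hτ hζ.pow_eq_one
  have hτβ := hβ τ ((hWi τ).2 hτζ)
  have hφζ : φ ζ = ζ ^ l := hφ ζ k hζ.pow_eq_one
  -- `φ` and `τ` commute on `β`
  have hcomm : φ (τ β) = τ (φ β) := by
    have hκ : (τ * φ)⁻¹ * (φ * τ) ∈ W := by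
      rw [hWi, AlgEquiv.mul_apply, AlgEquiv.mul_apply, hτζ, hφζ]
      have h3 : (τ * φ) ζ = ζ ^ l := by
        rw [AlgEquiv.mul_apply, hφζ, map_pow, hτζ]
      rw [← h3, ← AlgEquiv.mul_apply, inv_mul_cancel, AlgEquiv.one_apply]
    have h3 := hβ _ hκ
    have h4 : Ψ ((τ * φ)⁻¹ * (φ * τ)) = 1 := by
      rw [map_mul, map_inv, map_mul, map_mul, mul_comm (Ψ φ), inv_mul_cancel]
    rw [h4, Units.val_one, one_mul, AlgEquiv.mul_apply] at h3
    have h5 := congrArg (fun x => (τ * φ) x) h3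
    simp only [← AlgEquiv.mul_apply, mul_inv_cancel_left] at h5
    simpa only [AlgEquiv.mul_apply] using h5
  -- a power of `φ` fixes `β`
  obtain ⟨M, hM, hMβ⟩ : ∃ M : ℕ, 0 < M ∧ (φ ^ M) β = β ∧ (φ ^ M) β⁻¹ = β⁻¹ := by
    have h3 : ∀ j : ℕ, (φ ^ j) ζ = ζ ^ l ^ j := by
      intro j
      induction j with
      | zero => rw [pow_zero, pow_zero, pow_one]; rfl
      | succ j ih => rw [pow_succ', AlgEquiv.mul_apply, ih, map_pow, hφζ, ← pow_mul, ← pow_succ']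
    have hcop : l.Coprime (2 ^ k) := by
      refine Nat.Coprime.pow_right k ?_
      exact (Nat.coprime_primes hl Nat.prime_two).2 hl2
    have h4 : φ ^ (2 ^ k).totient ∈ W := by
      rw [hWi, h3]
      have h5 := Nat.ModEq.pow_totient hcop
      conv_rhs => rw [← pow_one ζ]
      exact pmod hζ.pow_eq_one h5
    have h5 : φ ^ ((2 ^ k).totient * 2 ^ k) ∈ W := by
      rw [pow_mul]
      exact W.pow_mem h4 _
    have h6 : Ψ (φ ^ ((2 ^ k).totient * 2 ^ k)) = 1 := by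
      rw [pow_mul, map_pow, h2]
    have h7 := hβ _ h5
    rw [h6, Units.val_one, one_mul] at h7
    exact ⟨(2 ^ k).totient * 2 ^ k, Nat.mul_pos (Nat.totient_pos.2 (Nat.pow_pos two_pos))
      (Nat.pow_pos two_pos), h7, by rw [map_inv₀, h7]⟩
  have hw1 : ¬ MP P (φ β / β) := nomp hφP hβ0 hM hMβ.1
  have hw2 : ¬ MP P (φ β / β)⁻¹ := by
    have h3 := nomp hφP (inv_ne_zero hβ0) hM hMβ.2
    rwa [map_inv₀, ← inv_div_inv, inv_inv, inv_inv, ← inv_div] at h3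
  have hw3 : VP P (φ β / β) := (VP.or_inv _).resolve_right hw2
  have hw : UP P (φ β / β) := ⟨hw3, hw1⟩
  set ε : Om := (Ψ τ : Om) with hε
  have hε0 : ε ≠ 0 := Units.ne_zero _
  have hφβ0 : φ β ≠ 0 := by
    rw [Ne, map_eq_zero]
    exact hβ0
  have e1 : τ (φ β / β) = ε ^ (l - 1) * (φ β / β) := by
    rw [map_div₀, ← hcomm, hτβ, map_mul, hφ ε k (hval τ)]
    have e2 : ε ^ l = ε ^ (l - 1) * ε := by
      rw [← pow_succ, Nat.sub_add_cancel hl.pos]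
    rw [e2]
    field_simp
  have h3 : MP P (τ (φ β / β) - φ β / β) := VP.inertia hτ hw3
  rw [e1] at h3
  have h4 := MP.mul_right h3 hw.inv.1
  rw [← sub_one_mul, mul_assoc, mul_inv_cancel₀ hw.ne_zero, mul_one] at h4
  have h5 : ε ^ (l - 1) = 1 := by
    refine rt1 Nat.prime_two h2P (n := k) ?_ h4
    rw [← pow_mul, mul_comm, pow_mul, hval τ, one_pow]
  apply Units.ext
  rw [Units.val_pow_eq_pow_val, Units.val_one]
  exact h5

end Pool.Agent.DM.DU.PI
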