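import Pool.Agent.Lib.DU.PI.KS

/-!
# THEOREM DU, Part I (helper55): Kronecker-Weber for some abelian fields

`kw0`: `L` a number field on which the elements of `Gal(Om/ℚ)` commute, such that the square of every element which fixes the roots
of unity of order `m0` is trivial on `L`. Then `L` is contained in a cyclotomic field.
-/

set_option autoImplicit false

open scoped Pointwise

noncomputable section

namespace Pool.Agent.DM.DU.PI

open Pool.Agent.MuZ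

/-- **Kronecker-Weber.** -/
theorem kw0 (L : IntermediateField ℚ Om) (hL : FiniteDimensional ℚ L)
    (hc : ∀ σ τ : Gal(Om/ℚ), ∀ x ∈ L, σ (τ x) = τ (σ x)) (m0 : ℕ) (hm0 : 0 < m0)
    (h2 : ∀ σ : Gal(Om/ℚ), (∀ z : Om, z ^ m0 = 1 → σ z = z) → ∀ x ∈ L, σ (σ x) = x) :
    FW.Ab0 L := by
  classical
  let N : Subgroup Gal(Om/ℚ) := L.fixingSubgroup
  have hN : ∀ σ : Gal(Om/ℚ), σ ∈ N ↔ ∀ x ∈ L, σ x = x := fun σ =>
    IntermediateField.mem_fixingSubgroup_iff L σ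
  have hnorm : N.Normal := by
    refine ⟨fun n hn g => (hN _).2 fun x hx => ?_⟩
    rw [AlgEquiv.mul_apply, AlgEquiv.mul_apply, hc n g⁻¹ x hx, (hN n).1 hn x hx,
      ← AlgEquiv.mul_apply, mul_inv_cancel, AlgEquiv.one_apply]
  have hopen : IsOpen (N : Set Gal(Om/ℚ)) := IntermediateField.fixingSubgroup_isOpen L
  have hfinG : Finite (Gal(Om/ℚ) ⧸ N) := Subgroup.quotient_finite_of_isOpen N hopen
  let icg : CommGroup (Gal(Om/ℚ) ⧸ N) :=
    { (inferInstance : Group (Gal(Om/ℚ) ⧸ N)) with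
      mul_comm := by
        intro a b
        obtain ⟨σ, rfl⟩ := QuotientGroup.mk_surjective a
        obtain ⟨τ, rfl⟩ := QuotientGroup.mk_surjective b
        rw [← QuotientGroup.mk_mul, ← QuotientGroup.mk_mul, QuotientGroup.eq]
        refine (hN _).2 fun x hx => ?_
        rw [AlgEquiv.mul_apply, AlgEquiv.mul_apply, hc τ σ x hx, ← AlgEquiv.mul_apply σ τ x,
          ← AlgEquiv.mul_apply, inv_mul_cancel, AlgEquiv.one_apply] }
  have : NeZero (Monoid.exponent (Gal(Om/ℚ) ⧸ N)) := ⟨Monoid.exponent_ne_zero_of_finite⟩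
  have hE : HasEnoughRootsOfUnity Om (Monoid.exponent (Gal(Om/ℚ) ⧸ N)) := inferInstance
  have hfinC : Finite ((Gal(Om/ℚ) ⧸ N) →* Omˣ) := inferInstance
  let _ : Fintype ((Gal(Om/ℚ) ⧸ N) →* Omˣ) := Fintype.ofFinite _
  -- the orders of the characters
  obtain ⟨e, he, k, n, hn, hen⟩ : ∃ e : ℕ, (∀ x : Gal(Om/ℚ) ⧸ N, x ^ e = 1) ∧
      ∃ k n : ℕ, Odd n ∧ e = 2 ^ k * n := by
    refine ⟨Monoid.exponent (Gal(Om/ℚ) ⧸ N), fun x => Monoid.pow_exponent_eq_one x, ?_⟩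
    exact Nat.exists_eq_two_pow_mul_odd Monoid.exponent_ne_zero_of_finite
  let π : Gal(Om/ℚ) →* Gal(Om/ℚ) ⧸ N := QuotientGroup.mk' N
  have hm : ∀ φ : (Gal(Om/ℚ) ⧸ N) →* Omˣ, ∃ m : ℕ, 0 < m ∧ ∀ σ : Gal(Om/ℚ),
      (∀ z : Om, z ^ m = 1 → σ z = z) → φ (π σ) ^ n = 1 := by
    intro φ
    obtain ⟨m, h3, h4⟩ := kw2 k ((φ ^ n).comp π) ⟨L, hL, fun σ hσ => by
      have h5 : π σ = 1 := (QuotientGroup.eq_one_iff σ).2 hσ
      rw [MonoidHom.comp_apply, h5, map_one]⟩ (fun σ => by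
      rw [MonoidHom.comp_apply, MonoidHom.pow_apply, ← pow_mul, mul_comm, ← hen, ← map_pow, he,
        map_one])
    exact ⟨m, h3, h4⟩
  choose mm hmm1 hmm2 using hm
  refine ⟨m0 * ∏ φ, mm φ, Nat.mul_pos hm0 (Finset.prod_pos fun φ _ => hmm1 φ), fun σ hσ => ?_⟩
  have hσ0 := h2 σ (fun z hz => hσ z (by rw [pow_mul, hz, one_pow]))
  by_contra hcon
  have h3 : π σ ≠ 1 := fun h => hcon ((QuotientGroup.eq_one_iff σ).1 h)
  obtain ⟨φ, hφ⟩ := CommGroup.exists_apply_ne_one_of_hasEnoughRootsOfUnity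
    (Gal(Om/ℚ) ⧸ N) Om h3
  have h4 : φ (π σ) ^ n = 1 := by
    refine hmm2 φ σ (fun z hz => hσ z ?_)
    obtain ⟨c, hc⟩ := Finset.dvd_prod_of_mem mm (Finset.mem_univ φ)
    rw [hc, mul_comm, mul_assoc, pow_mul, hz, one_pow]
  have h5 : φ (π σ) ^ 2 = 1 := by
    have h6 : π (σ * σ) = 1 := by
      refine (QuotientGroup.eq_one_iff (σ * σ)).2 ((hN _).2 fun x hx => ?_)
      rw [AlgEquiv.mul_apply]
      exact hσ0 x hx
    rw [pow_two, ← map_mul, ← map_mul, h6, map_one]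
  obtain ⟨j, rfl⟩ := hn
  rw [pow_add, pow_mul, h5, one_pow, one_mul, pow_one] at h4
  exact hφ h4

end Pool.Agent.DM.DU.PI
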