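import Pool.Agent.Lib.DU.PI.KW0
import Pool.Agent.Lib.DM.PI.SpecC
import Pool.Agent.Lib.DM.PI.SpecD
import Pool.Agent.Lib.DU.Iface
import Pool.Agent.Lib.DN.Base

/-!
# THEOREM DU, Part I (helper55): the maximal subfield of `Lf k t f` which is abelian over `ℚ`

`H0 f`: the classes `b conj(b)⁻¹ h`, `h ∈ H3 f`; `L0 k t f = FixI (3 f) (H0 f)`. `h0_nice`: `H0 f` is a group of classes;
`l0_ab`: `L0 k t f` is contained in a cyclotomic field (`Ab0`); `l0_ncj`: a character which is not trivial on `Gal(Om/L0)` is not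
invariant under complex conjugation.
-/

set_option autoImplicit false

open scoped Pointwise

noncomputable section

namespace Pool.Agent.DM.DU.PI

open Pool.Agent.MuZ Pool.Agent.DN NumberField
open Pool.Agent.DM.PI
open Pool.Agent.DI (io ofC io_inj exists_io io_ofC ofC_io VP MP UP TP ex)

/-- The classes `b conj(b)⁻¹ h`, `h` in `H3 f`. -/
def H0 {k t : ℕ} (f : ℕ) (a : Ideal (OO k t)) : Prop :=
  Gd (3 * f) a ∧ ∃ b h : Ideal (OO k t), Gd (3 * f) b ∧ H3 f h ∧ Ray (3 * f) (a * cjI b) (b * h)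

/-- The maximal subfield of `Lf k t f` which is abelian over `ℚ`. -/
def L0 (k t f : ℕ) : IntermediateField ℚ Om := FixI (3 * f) (H0 (k := k) (t := t) f)

variable {k t : ℕ}

theorem cj_top (hO3 : DN.S_O3) [SqN k t] : cjI (⊤ : Ideal (OO k t)) = ⊤ := by
  have h := (hO3 k t).2.2.2.1 (1 : OO k t)
  have h1 : sp (1 : OO k t) = ⊤ := Ideal.span_singleton_one
  have h2 : cjO (1 : OO k t) = 1 := by
    apply QuadraticAlgebra.ext
    · change (1 : OO k t).re + (t : ℤ) * (1 : OO k t).im = (1 : OO k t).re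
      rw [QuadraticAlgebra.im_one]
      ring
    · change -(1 : OO k t).im = (1 : OO k t).im
      rw [QuadraticAlgebra.im_one]
      ring
  rwa [h2, h1] at h

theorem gd_cj (hO3 : DN.S_O3) [SqN k t] (hB : Bas k t) {N : ℕ} {b : Ideal (OO k t)}
    (hb : Gd N b) : Gd N (cjI b) := by
  refine ⟨fun h0 => hb.1 ?_, ((hO3 k t).2.2.2.2.1 b N).2 hb.2⟩
  have h1 := ((hO3 k t).2.2.1 b).2.1
  rw [h0, (hB.izero _).2 rfl] at h1
  exact (hB.izero _).1 h1.symm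

theorem gd_top [SqN k t] (hB : Bas k t) (N : ℕ) : Gd N (⊤ : Ideal (OO k t)) :=
  ⟨hB.top_ne, prI_top N⟩

theorem gd_mul [SqN k t] (hB : Bas k t) {N : ℕ} {a b : Ideal (OO k t)} (ha : Gd N a)
    (hb : Gd N b) : Gd N (a * b) := by
  have := hB.dd
  exact ⟨mul_ne_zero ha.1 hb.1, (hB.pmul _ _ _).2 ⟨ha.2, hb.2⟩⟩

theorem h3_h0 (hO3 : DN.S_O3) [SqN k t] (hB : Bas k t) {f : ℕ} (hf : Fok f)
    (hN : NiceI (3 * f) (H3 (n := k) (t := t) f)) {a : Ideal (OO k t)} (ha : H3 f a) :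
    H0 f a := by
  refine ⟨hN.cop a ha, ⊤, a, gd_top hB _, ha, ?_⟩
  rw [cj_top hO3, Ideal.mul_top, Ideal.top_mul]
  exact hB.refl _ _ (md3 hf)

theorem h0_nice (hO3 : DN.S_O3) [SqN k t] (hB : Bas k t) {f : ℕ} (hf : Fok f)
    (hN : NiceI (3 * f) (H3 (n := k) (t := t) f)) :
    NiceI (3 * f) (H0 (k := k) (t := t) f) := by
  have hn := md3 hf
  obtain ⟨-, c2, -⟩ := hO3 k t
  refine ⟨h3_h0 hO3 hB hf hN hN.top, fun a h => h.1, ?_, ?_⟩
  · rintro a a' ⟨ha, b, h, hb, hh, hr⟩ haa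
    have h5 := (hB.bot _ _ _ hn haa).1 ha.1
    have h6 := (hB.pri _ _ _ hn haa).1 ha.2
    exact ⟨⟨h5, h6⟩, b, h, hb, hh,
      hB.trans _ _ _ _ hn (hB.mul _ _ _ _ _ hn (hB.symm _ _ _ hn haa) (hB.refl _ _ hn)) hr⟩
  · rintro a a' ⟨ha, b, h, hb, hh, hr⟩ ⟨ha', b', h', hb', hh', hr'⟩
    refine ⟨gd_mul hB ha ha', b * b', h * h', gd_mul hB hb hb', hN.mul _ _ hh hh', ?_⟩
    have h1 := hB.mul _ _ _ _ _ hn hr hr'
    have e1 : a * cjI b * (a' * cjI b') = a * a' * cjI (b * b') := by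
      rw [c2, mul_mul_mul_comm]
    have e2 : b * h * (b' * h') = b * b' * (h * h') := mul_mul_mul_comm _ _ _ _
    rwa [e1, e2] at h1

/-- If the norm class is trivial then the square is in `H0 f`. -/
theorem h0_sq (hO3 : DN.S_O3) [SqN k t] (hB : Bas k t) {f : ℕ} (hf : Fok f)
    (hN : NiceI (3 * f) (H3 (n := k) (t := t) f)) {a : Ideal (OO k t)} (ha : Gd (3 * f) a)
    (hr : Ray (3 * f) (a * cjI a) ⊤) : H0 f (a * a) := by
  have hn := md3 hf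
  refine ⟨gd_mul hB ha ha, a, ⊤, ha, hN.top, ?_⟩
  have h3 := hB.mul _ _ _ _ _ hn (hB.refl _ a hn) hr
  rwa [← mul_assoc] at h3

/-- The classes `conj(a) a⁻¹`. -/
theorem h0_cj (hO3 : DN.S_O3) [SqN k t] (hB : Bas k t) {f : ℕ} (hf : Fok f)
    (hN : NiceI (3 * f) (H3 (n := k) (t := t) f)) {a a' : Ideal (OO k t)} (ha : Gd (3 * f) a)
    (ha' : Gd (3 * f) a') (hr : Ray (3 * f) (a * a') ⊤) : H0 f (cjI a * a') := by
  have hn := md3 hf
  have hc := gd_cj hO3 hB ha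
  refine ⟨gd_mul hB hc ha', cjI a, ⊤, hc, hN.top, ?_⟩
  have h1 : cjI (cjI a) = a := ((hO3 k t).2.2.1 a).1
  rw [h1, mul_assoc, mul_comm a']
  exact hB.mul _ _ _ _ _ hn (hB.refl _ _ hn) hr

/-- `H0 f` is stable under complex conjugation. -/
theorem h0_st (hO3 : DN.S_O3) [SqN k t] (hB : Bas k t) {f : ℕ} (hf : Fok f)
    (hN : NiceI (3 * f) (H3 (n := k) (t := t) f)) {a : Ideal (OO k t)} (ha : H0 f a) :
    H0 f (cjI a) := by
  have hn := md3 hf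
  obtain ⟨a', ha'1, ha'2, hr⟩ := hB.inv _ a hn ha.1.1 ha.1.2
  have h1 := h0_cj hO3 hB hf hN ha.1 ⟨ha'1, ha'2⟩ hr
  have hN0 := h0_nice hO3 hB hf hN
  have h2 := hN0.mul _ _ h1 ha
  refine hN0.ray _ _ h2 ?_
  have e : cjI a * a' * a = cjI a * (a * a') := by
    rw [mul_assoc, mul_comm a']
  rw [e]
  have h3 := hB.mul _ _ _ _ _ hn (hB.refl _ (cjI a) hn) hr
  rwa [Ideal.mul_top] at h3

/-- `g` and `h` commute on `L`. -/
def Com (L : IntermediateField ℚ Om) (g h : Gal(Om/ℚ)) : Prop := ∀ x ∈ L, g (h x) = h (g x)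

theorem Com.symm {L : IntermediateField ℚ Om} {g h : Gal(Om/ℚ)} (H : Com L g h) : Com L h g :=
  fun x hx => (H x hx).symm

theorem Com.mul {L : IntermediateField ℚ Om} (hst : ∀ g : Gal(Om/ℚ), ∀ x ∈ L, g x ∈ L)
    {g h h' : Gal(Om/ℚ)} (H : Com L g h) (H' : Com L g h') : Com L g (h * h') := by
  intro x hx
  rw [AlgEquiv.mul_apply, AlgEquiv.mul_apply, H _ (hst h' x hx), H' x hx]

theorem Com.inv {L : IntermediateField ℚ Om} (hst : ∀ g : Gal(Om/ℚ), ∀ x ∈ L, g x ∈ L)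
    {g h : Gal(Om/ℚ)} (H : Com L g h) : Com L g h⁻¹ := by
  intro x hx
  have h1 := H _ (hst h⁻¹ x hx)
  have h2 : h (h⁻¹ x) = x := by
    rw [← AlgEquiv.mul_apply, mul_inv_cancel, AlgEquiv.one_apply]
  rw [h2] at h1
  rw [h1, ← AlgEquiv.mul_apply h⁻¹ h, inv_mul_cancel, AlgEquiv.one_apply]

theorem com_all {L : IntermediateField ℚ Om} (hst : ∀ g : Gal(Om/ℚ), ∀ x ∈ L, g x ∈ L)
    (G : Subgroup Gal(Om/ℚ)) (c : Gal(Om/ℚ)) (hG : ∀ g : Gal(Om/ℚ), g ∈ G ∨ c * g ∈ G)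
    (h1 : ∀ σ ∈ G, ∀ τ ∈ G, Com L σ τ) (h2 : ∀ σ ∈ G, Com L c σ) (g h : Gal(Om/ℚ)) :
    Com L g h := by
  have hcc : Com L c c := fun x _ => rfl
  have hgen : ∀ g₀ : Gal(Om/ℚ), Com L g₀ c → (∀ σ ∈ G, Com L g₀ σ) → ∀ h, Com L g₀ h := by
    intro g₀ h3 h4 h
    rcases hG h with h5 | h5
    · exact h4 h h5
    · have h6 := (h3.inv hst).mul hst (h4 _ h5)
      rwa [inv_mul_cancel_left] at h6
  refine hgen g ?_ ?_ h
  · exact (hgen c hcc (fun σ hσ => h2 σ hσ) g).symm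
  · intro σ hσ
    exact (hgen σ (h2 σ hσ).symm (fun τ hτ => h1 σ hσ τ hτ) g).symm

theorem gk_of (hSqr : DT.PI.S_Sqr) (k t : ℕ) [SqN k t] : ∃ m : ℕ, 0 < m ∧
    ∀ σ : Gal(Om/ℚ), (∀ z : Om, z ^ m = 1 → σ z = z) → σ ∈ GK k t := by
  obtain ⟨m, g, hm, hg, hgal⟩ := hSqr ((t : ℤ) ^ 2 - 4 * (k : ℤ))
  refine ⟨m, hm, fun σ hσ => mem_GK_iff.2 ?_⟩
  have hσ := hgal σ hσ
  have h0 := wO_sq (n := k) (t := t)
  push_cast at hg
  have h1 : (2 * wO k t - t - g) * (2 * wO k t - t + g) = 0 := by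
    linear_combination 4 * h0 - hg
  have h2 : wO k t = (t + g) / 2 ∨ wO k t = (t - g) / 2 := by
    rcases mul_eq_zero.1 h1 with h | h
    · left
      linear_combination h / 2
    · right
      linear_combination h / 2
  rcases h2 with h | h
  · rw [h, map_div₀, map_add, hσ, map_natCast, map_ofNat]
  · rw [h, map_div₀, map_sub, hσ, map_natCast, map_ofNat]

/-- **`L0 k t f` is contained in a cyclotomic field.** -/
theorem l0_ab (hSqr : DT.PI.S_Sqr) (hO3 : DN.S_O3) (hCg : S_Cg) (hAr3 : S_Ar3) (hPs : S_Ps)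
    (hGalI : S_GalI) (hCj : DS.S_Cj) (k t : ℕ) [Nsp k t] (hB : Bas k t) (f : ℕ) (hf : Fok f) :
    FW.Ab0 (L0 k t f) := by
  have hn := md3 hf
  obtain ⟨-, -, hN, -, -⟩ := (hAr3 hCg k t hB).1 f hf
  have hN0 := h0_nice hO3 hB hf hN
  obtain ⟨g1, g2, g3, g4, -, g6, g7, -⟩ := hGalI hPs k t hB (3 * f) _ hn hN0
  obtain ⟨-, s2, -, -, -⟩ := hPs k t hB (3 * f) hn
  obtain ⟨c, -, hc⟩ := hCj
  obtain ⟨c1, c2, c3⟩ := hc k t
  have hst : ∀ g : Gal(Om/ℚ), ∀ x ∈ L0 k t f, g x ∈ L0 k t f :=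
    c3 (3 * f) _ hn.pos hn.dvd hN0.ray (fun a ha => h0_st hO3 hB hf hN ha)
  have hcomm : ∀ g h : Gal(Om/ℚ), Com (L0 k t f) g h := by
    refine com_all hst (GK k t) c c2 ?_ ?_
    · intro σ hσ τ hτ x hx
      have h1 := (g7 σ hσ τ hτ) ⟨τ (σ x), hst _ _ (hst _ _ hx)⟩
      have h4 : (σ * τ * σ⁻¹ * τ⁻¹) (τ (σ x)) = σ (τ x) := by
        change (σ * τ * σ⁻¹ * τ⁻¹) ((τ * σ) x) = (σ * τ) x
        rw [← AlgEquiv.mul_apply]
        congr 1
        group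
      rw [← h4]
      exact h1
    · intro σ hσ x hx
      obtain ⟨hcσ, hcP⟩ := c1 σ hσ
      obtain ⟨a, ha⟩ := hB.psi _ hn σ hσ
      obtain ⟨a', ha', hr⟩ := s2 σ hσ a ha
      have h1 : Psi (c * σ * c⁻¹ * σ⁻¹) (3 * f) (cjI a * a') :=
        hB.pmu _ hn _ _ _ _ (hcP _ a hn.pos ha) ha'
      have h2 : H0 f (cjI a * a') :=
        h0_cj hO3 hB hf hN ⟨ha.ne, psi_pr hB ha hn.pos⟩ ⟨ha'.ne, psi_pr hB ha' hn.pos⟩ hr
      have h3 : c * σ * c⁻¹ * σ⁻¹ ∈ (L0 k t f).fixingSubgroup :=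
        (g4 _ (mul_mem hcσ (inv_mem hσ)) _ h1).2 h2
      have h4 := h3 ⟨σ (c x), hst _ _ (hst _ _ hx)⟩
      have h5 : (c * σ * c⁻¹ * σ⁻¹) (σ (c x)) = c (σ x) := by
        change (c * σ * c⁻¹ * σ⁻¹) ((σ * c) x) = (c * σ) x
        rw [← AlgEquiv.mul_apply]
        congr 1
        group
      rw [← h5]
      exact h4
  obtain ⟨m1, hm1, hσK⟩ := gk_of hSqr k t
  refine kw0 (L0 k t f) g1 hcomm (m1 * (3 * f)) (Nat.mul_pos hm1 hn.pos) (fun σ hσ => ?_)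
  have hσG : σ ∈ GK k t := hσK σ (fun z hz => hσ z (by rw [pow_mul, hz, one_pow]))
  have hσ2 : ∀ z : Om, z ^ (3 * f) = 1 → σ z = z := fun z hz =>
    hσ z (by rw [mul_comm, pow_mul, hz, one_pow])
  obtain ⟨a, ha⟩ := hB.psi _ hn σ hσG
  have hGa : Gd (3 * f) a := ⟨ha.ne, psi_pr hB ha hn.pos⟩
  have h2 : H0 f (a * a) := by
    refine h0_sq hO3 hB hf hN hGa ?_
    -- the norm of `a` is `1` modulo `3 f`
    obtain ⟨ζ, hζ⟩ := prim (3 * f) hn.pos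
    have h3 := hB.cyc _ σ a hσG hn ha _ hζ.pow_eq_one
    rw [hσ2 _ hζ.pow_eq_one] at h3
    have hζ0 : ζ ≠ 0 := hζ.ne_zero hn.pos.ne'
    have h4 : ζ ^ ((NI a : ℤ) - 1) = 1 := by
      rw [zpow_sub₀ hζ0, zpow_natCast, zpow_one, ← h3, div_self hζ0]
    obtain ⟨j, hj⟩ := (hζ.zpow_eq_one_iff_dvd _).1 h4
    have hna : a * cjI a = sp (NI a : OO k t) := ((hO3 k t).2.2.1 a).2.2
    rw [hna]
    have hNI0 : (NI a : OO k t) ≠ 0 :=
      natCast_OO_ne (Nat.pos_of_ne_zero fun h => ha.ne ((hB.izero a).1 h))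
    have hNm : Nm (NI a : OO k t) = (NI a : ℤ) ^ 2 := Nm_nat _
    have hcop : Cop (NI a : OO k t) (3 * f) := by
      unfold Cop
      rw [hNm]
      exact IsCoprime.pow_left (Nat.isCoprime_iff_coprime.2 ((hB.pni (3 * f) a hn.pos).1 hGa.2))
    have hc1 : Cop (1 : OO k t) (3 * f) := cop_one _
    refine ⟨1, (NI a : OO k t), one_ne_zero, hNI0, hc1, hcop, ⟨-(j : OO k t), ?_⟩, ?_⟩
    · have h8 := congrArg (Int.cast : ℤ → OO k t) hj
      push_cast at h8 ⊢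
      linear_combination -h8
    · have h9 : sp (1 : OO k t) = ⊤ := Ideal.span_singleton_one
      rw [h9, Ideal.top_mul, Ideal.mul_top]
  have h3 : σ * σ ∈ (L0 k t f).fixingSubgroup :=
    (g4 _ (mul_mem hσG hσG) _ (hB.pmu _ hn _ _ _ _ ha ha)).2 h2
  intro x hx
  exact h3 ⟨x, hx⟩

/-- **A character which is not trivial on `Gal(Om/L0)` is not invariant under complex conjugation.** -/
theorem l0_ncj (hO3 : DN.S_O3) (hCg : S_Cg) (hAr3 : S_Ar3) (hPs : S_Ps) (hGalI : S_GalI)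
    (k t : ℕ) [Nsp k t] (hB : Bas k t) (f : ℕ) (hf : Fok f) (P : Ideal ZZ) (hP : P.IsPrime)
    (χb : Gal(Om/ℚ) → ZZ ⧸ P) (hL : ∀ σ ∈ (Lf k t f).fixingSubgroup, χb σ = 1)
    (hnt : ∃ σ ∈ (L0 k t f).fixingSubgroup, χb σ ≠ 1) (χ : Ideal (OO k t) → ZZ)
    (hχ : IsChi (3 * f) (fun a => (χ a : Om)))
    (hχb : ∀ σ ∈ GK k t, ∀ a : Ideal (OO k t), Psi σ⁻¹ (3 * f) a →
        Ideal.Quotient.mk P (χ a) = χb σ) : Ncj (fun a => (χ a : Om)) := by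
  by_contra hcon
  unfold Ncj at hcon
  push Not at hcon
  obtain ⟨σ, hσ, hσ1⟩ := hnt
  have hn := md3 hf
  obtain ⟨-, -, hN, -, -⟩ := (hAr3 hCg k t hB).1 f hf
  have hN0 := h0_nice hO3 hB hf hN
  obtain ⟨-, -, g3, g4, -⟩ := hGalI hPs k t hB (3 * f) _ hn hN0
  obtain ⟨-, -, -, l4, -⟩ := hGalI hPs k t hB (3 * f) _ hn hN
  have hσK : σ ∈ GK k t := g3 hσ
  obtain ⟨a, ha⟩ := hB.psi _ hn σ⁻¹ (inv_mem hσK)
  have hH0 : H0 f a := (g4 σ⁻¹ (inv_mem hσK) a ha).1 (inv_mem hσ)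
  obtain ⟨hGa, b, h, hb, hh, hr⟩ := hH0
  have hdom : IsDomain (ZZ ⧸ P) := Ideal.Quotient.isDomain P
  -- `χ h = 1` in the residue field
  have hχh : Ideal.Quotient.mk P (χ h) = 1 := by
    obtain ⟨τ, hτ, hτh⟩ := hB.sur (3 * f) h hn (hN.cop h hh).1 (hN.cop h hh).2
    have h1 : τ ∈ (Lf k t f).fixingSubgroup := (l4 τ hτ h hτh).2 hh
    have h2 := hχb τ⁻¹ (inv_mem hτ) h (by rwa [inv_inv])
    rw [h2]
    exact hL _ (inv_mem h1)
  have hcb : Gd (3 * f) (cjI b) := gd_cj hO3 hB hb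
  have hmul : ∀ x y : Ideal (OO k t), χ (x * y) = χ x * χ y := by
    intro x y
    have h1 := hχ.mul x y
    exact_mod_cast h1
  have h1 : χ (a * cjI b) = χ (b * h) := by
    have h3 := gd_mul hB hGa hcb
    have h4 := gd_mul hB hb (hN.cop h hh)
    have h2 := hχ.ray (a * cjI b) (b * h) h3.1 h4.1 h3.2 h4.2 hr
    exact_mod_cast h2
  have h2 : χ (cjI b) = χ b := by
    have h3 := hcon b
    exact_mod_cast h3
  rw [hmul, hmul, h2] at h1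
  have h3 := congrArg (Ideal.Quotient.mk P) h1
  rw [map_mul, map_mul, hχh, mul_one] at h3
  have h4 : Ideal.Quotient.mk P (χ b) ≠ 0 := by
    obtain ⟨m, hm, hm1⟩ := hχ.cop
    have hm0 : m ≠ 0 := by
      rintro rfl
      rw [Nat.coprime_zero_left] at hm
      omega
    intro h5
    have h6 : χ b ^ m = 1 := by
      have h7 := hm1 b hb.1 hb.2
      exact_mod_cast h7
    have h8 := congrArg (Ideal.Quotient.mk P) h6
    rw [map_pow, h5, map_one, zero_pow hm0] at h8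
    exact zero_ne_one h8
  have h5 : Ideal.Quotient.mk P (χ a) = 1 := by
    have h6 : (Ideal.Quotient.mk P (χ a) - 1) * Ideal.Quotient.mk P (χ b) = 0 := by
      rw [sub_mul, one_mul, h3, sub_self]
    rcases mul_eq_zero.1 h6 with h7 | h7
    · exact sub_eq_zero.1 h7
    · exact absurd h7 h4
  rw [hχb σ hσK a ha] at h5
  exact hσ1 h5

end Pool.Agent.DM.DU.PI
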