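import Pool.Agent.Lib.DU.PI.L0
import Pool.Agent.Lib.DM.PI.Top

/-!
# THEOREM DU, Part I (helper55): `p = 3` ramified

`sI_of`: the result for the fields `Lf k t f`; `thmDU_of`: Theorem DU, from the statements of the other parts: `DM.PI.InG`
(`DS.S_R1`, `E1`, `E6`, `E7`, `E8`, `DM.S_GR`, `S_GM`, `S_G3`, `S_H`), `DS.S_Cj` and the output `DU.S_G` of Part G.
-/

set_option autoImplicit false

open scoped Pointwise

noncomputable section

namespace Pool.Agent.DM.DU.PI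

open Pool.Agent.MuZ Pool.Agent.DN
open Pool.Agent.DM.PI
open Pool.Agent.DI.PI (Reps HypI Meas tr)
open Pool.Agent.DS.PI (RCF HypJ)

/-- **The result for the fields `Lf k t f`** (ramified case), from the statements of the other parts. -/
theorem sI_of (i : InG) (cj : DS.S_Cj) (G : S_G) : S_I := by
  intro k t _ f hf
  obtain ⟨⟨P, hAb⟩, hP2⟩ := pExP
  obtain ⟨h3, hN, -⟩ := hP2 P hAb
  have hB := i.bas k t
  have hn := md3 hf
  obtain ⟨-, -, hNi, -, -⟩ := (pAr3 pCg k t hB).1 f hf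
  have hN0 := h0_nice aO3 hB hf hNi
  obtain ⟨g1, g2, -, -, -, g6, -, -⟩ := pGalI pPs k t hB (3 * f) _ hn hN0
  have h3p : Fact (Nat.Prime 3) := ⟨Nat.prime_three⟩
  have hX : XFinGen 3 (cyc 3 (L0 k t f)) :=
    FW.fwa 3 (by norm_num) _ g1 (l0_ab DT.PI.pSqr aO3 pCg pAr3 pPs pGalI cj k t hB f hf)
  have hle : L0 k t f ≤ Lf k t f := by
    intro x hx τ hτ a ha hH
    exact hx τ hτ a ha (h3_h0 aO3 hB hf hNi hH)
  refine lf_of i k t f hf (L0 k t f) g2 hle g6 hX ⟨P, hN.1, by exact_mod_cast h3, ?_⟩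
  intro χb hmul hL hnt
  refine meas_of i k t f hf P hN.1 h3 χb hmul hL ?_ ?_
  · obtain ⟨σ, hσ, h1⟩ := hnt
    exact ⟨σ, IntermediateField.fixingSubgroup_le g2 hσ, h1⟩
  · intro χ hχ hχb m hm hmt
    obtain ⟨N0, h1, h2⟩ := G k t f m (fun a => (χ a : Om)) P hm hmt hχ
      (l0_ncj aO3 pCg pAr3 pPs pGalI k t hB f hf P hN.1 χb hL hnt χ hχ hχb) hAb
    refine ⟨N0, h1, fun N hN' T hT D hD => ?_⟩
    obtain ⟨d, hd1, hd2, hd3⟩ := h2 N hN' T hT D hD
    exact ⟨P, d, hAb, hd1, hd2, hd3⟩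

/-- **Theorem DU** (`3` ramified), from the statements of the other parts. -/
theorem thmDU_of (i : InG) (cj : DS.S_Cj) (G : S_G) : ThmDU :=
  fun k t _ F hF hW => wf_of i k t (fun f hf => sI_of i cj G k t f hf) F hF hW

end Pool.Agent.DM.DU.PI
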